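import Mathlib

/-!
# MP_405999_gt: the point space of a locally temperate frame is locally strongly sober
-/

set_option autoImplicit false

open Set

universe u

namespace Pool.Agent.Results.MP_405999_gt.PointsStronglySober

section defs

variable (L : Type u) [Order.Frame L]

/-- filters of a frame -/
def IsFilter {L : Type u} [Order.Frame L] (F : Set L) : Prop :=
  ⊤ ∈ F ∧ (∀ u v, u ∈ F → u ≤ v → v ∈ F) ∧ ∀ u v, u ∈ F → v ∈ F → u ⊓ v ∈ F

/-- completely prime filters: if the join of a family (equivalently, of a set) belongs to the filter, then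
so does some member -/
def IsCompletelyPrime {L : Type u} [Order.Frame L] (F : Set L) : Prop :=
  IsFilter F ∧ ∀ S : Set L, sSup S ∈ F → ∃ u ∈ S, u ∈ F

/-- Scott-open filters -/
def IsScottOpenFilter {L : Type u} [Order.Frame L] (F : Set L) : Prop :=
  IsFilter F ∧ ∀ D : Set L, D.Nonempty → DirectedOn (· ≤ ·) D → sSup D ∈ F → ∃ u ∈ D, u ∈ F

/-- the join of two filters -/
def join {L : Type u} [Order.Frame L] (F G : Set L) : Set L := {w | ∃ u ∈ F, ∃ v ∈ G, w = u ⊓ v}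

/-- locally temperate frames: joins of two Scott-open filters are Scott-open -/
def LocallyTemperate : Prop :=
  ∀ F G : Set L, IsScottOpenFilter F → IsScottOpenFilter G → IsScottOpenFilter (join F G)

/-- the space of points: completely prime filters -/
def Pt : Type u := {x : Set L // IsCompletelyPrime x}

/-- the basic (and only) open sets of the space of points -/
def O {L : Type u} [Order.Frame L] (u : L) : Set (Pt L) := {x | u ∈ x.1}

theorem O_inf {L : Type u} [Order.Frame L] (u v : L) : O (u ⊓ v) = O u ∩ O v := by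
  ext x
  constructor
  · intro h
    exact ⟨x.2.1.2.1 _ _ h inf_le_left, x.2.1.2.1 _ _ h inf_le_right⟩
  · rintro ⟨h1, h2⟩
    exact x.2.1.2.2 _ _ h1 h2

theorem O_sSup {L : Type u} [Order.Frame L] (S : Set L) : O (sSup S) = ⋃ u ∈ S, O u := by
  ext x
  simp only [mem_iUnion, exists_prop]
  constructor
  · intro h
    exact x.2.2 S h
  · rintro ⟨u, hu, h⟩
    exact x.2.1.2.1 _ _ h (le_sSup hu)

/-- the topology of the space of points: the open sets are the sets `O u` -/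
instance : TopologicalSpace (Pt L) where
  IsOpen U := ∃ u : L, U = O u
  isOpen_univ := ⟨⊤, by ext x; exact ⟨fun _ => x.2.1.1, fun _ => mem_univ _⟩⟩
  isOpen_inter := by
    rintro _ _ ⟨u, rfl⟩ ⟨v, rfl⟩
    exact ⟨u ⊓ v, (O_inf u v).symm⟩
  isOpen_sUnion := by
    intro S hS
    refine ⟨sSup {u | O u ∈ S}, ?_⟩
    rw [O_sSup]
    ext x
    simp only [mem_sUnion, mem_iUnion, exists_prop, mem_ofPred_eq]
    constructor
    · rintro ⟨U, hU, hx⟩
      obtain ⟨u, rfl⟩ := hS U hU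
      exact ⟨u, hU, hx⟩
    · rintro ⟨u, hu, hx⟩
      exact ⟨O u, hu, hx⟩

end defs

/-- the set of limits of an ultrafilter: the points all of whose open neighbourhoods belong to it -/
def limits {X : Type u} [TopologicalSpace X] (𝒰 : Ultrafilter X) : Set X :=
  {x | ∀ U : Set X, IsOpen U → x ∈ U → U ∈ 𝒰}

/-- locally strongly sober spaces -/
def LocallyStronglySober (X : Type u) [TopologicalSpace X] : Prop :=
  ∀ 𝒰 : Ultrafilter X, limits 𝒰 = ∅ ∨ ∃! x : X, limits 𝒰 = closure {x}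

section proofs

variable {L : Type u} [Order.Frame L]

theorem IsCompletelyPrime.scottOpen {F : Set L} (h : IsCompletelyPrime F) : IsScottOpenFilter F :=
  ⟨h.1, fun D _ _ hD => h.2 D hD⟩

/-- Hofmann-Mislove lemma: an element which belongs to all points above a Scott-open filter belongs
to the filter. -/
theorem mem_of_forall {Φ : Set L} (hΦ : IsScottOpenFilter Φ) {w : L}
    (hw : ∀ z : Set L, IsCompletelyPrime z → Φ ⊆ z → w ∈ z) : w ∈ Φ := by
  by_contra hwΦ
  obtain ⟨v, hwv, hv⟩ := zorn_le_nonempty₀ (Φᶜ) (fun c hc hchain y hy => by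
    refine ⟨sSup c, fun hs => ?_, fun z hz => le_sSup hz⟩
    obtain ⟨u, huc, huΦ⟩ := hΦ.2 c ⟨y, hy⟩ hchain.directedOn hs
    exact hc huc huΦ) w hwΦ
  have hvΦ : v ∉ Φ := hv.prop
  have hmax : ∀ a, ¬ a ≤ v → v ⊔ a ∈ Φ := by
    intro a ha
    by_contra hcon
    exact ha (le_sup_right.trans (hv.le_of_ge (show v ⊔ a ∈ Φᶜ from hcon) le_sup_left))
  have hz : IsCompletelyPrime {a : L | ¬ a ≤ v} := by
    refine ⟨⟨fun h => ?_, fun a b ha hab hb => ha (hab.trans hb), fun a b ha hb hab => ?_⟩, fun S hS => ?_⟩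
    · exact hvΦ (hΦ.1.2.1 _ _ hΦ.1.1 h)
    · have h1 := hΦ.1.2.2 _ _ (hmax a ha) (hmax b hb)
      rw [← sup_inf_left, sup_eq_left.mpr hab] at h1
      exact hvΦ h1
    · by_contra hcon
      push Not at hcon
      exact hS (sSup_le fun u hu => by simpa using hcon u hu)
  have := hw _ hz fun a ha hav => hvΦ (hΦ.1.2.1 _ _ ha hav)
  exact this hwv

theorem mem_closure_singleton_iff (z x : Pt L) : z ∈ closure ({x} : Set (Pt L)) ↔ z.1 ⊆ x.1 := by
  rw [mem_closure_iff]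
  constructor
  · intro h u hu
    obtain ⟨y, hy, rfl⟩ := h (O u) ⟨u, rfl⟩ hu
    exact hy
  · rintro h _ ⟨u, rfl⟩ hz
    exact ⟨x, h hz, rfl⟩

theorem O_bot : O (⊥ : L) = ∅ := by
  have := O_sSup (∅ : Set L)
  simpa using this

theorem O_sup (u v : L) : O (u ⊔ v) = O u ∪ O v := by
  have := O_sSup ({u, v} : Set L)
  simpa using this

/-- **The space of points of a locally temperate frame is locally strongly sober.** -/
theorem result (L : Type u) [Order.Frame L] (hL : LocallyTemperate L) : LocallyStronglySober (Pt L) := by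
  intro 𝒰
  by_cases hne : limits 𝒰 = ∅
  · exact Or.inl hne
  right
  obtain ⟨z₀, hz₀⟩ := nonempty_iff_ne_empty.mpr hne
  -- the prime filter of all u with O u in the ultrafilter
  let P : Set L := {u | O u ∈ 𝒰}
  have hPlim : ∀ z : Pt L, z ∈ limits 𝒰 ↔ z.1 ⊆ P := by
    intro z
    constructor
    · intro h u hu
      exact h (O u) ⟨u, rfl⟩ hu
    · rintro h _ ⟨u, rfl⟩ hu
      exact h hu
  have hPup : ∀ u v, u ∈ P → u ≤ v → v ∈ P := by
    intro u v hu huv
    refine Filter.mem_of_superset (show O u ∈ (𝒰 : Filter (Pt L)) from hu) ?_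
    intro x hx
    exact x.2.1.2.1 _ _ hx huv
  have hPinf : ∀ u v, u ∈ P → v ∈ P → u ⊓ v ∈ P := by
    intro u v hu hv
    change O (u ⊓ v) ∈ (𝒰 : Filter (Pt L))
    rw [O_inf]
    exact Filter.inter_mem hu hv
  have hPbot : ⊥ ∉ P := by
    intro h
    change O (⊥ : L) ∈ (𝒰 : Filter (Pt L)) at h
    rw [O_bot] at h
    exact 𝒰.empty_notMem h
  have hPsup : ∀ u v, u ⊔ v ∈ P → u ∈ P ∨ v ∈ P := by
    intro u v h
    change O (u ⊔ v) ∈ (𝒰 : Filter (Pt L)) at h
    rw [O_sup] at h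
    exact Ultrafilter.union_mem_iff.mp h
  -- the largest Scott-open filter inside P
  let 𝔉 : Set (Set L) := {F | IsScottOpenFilter F ∧ F ⊆ P}
  have h𝔉dir : ∀ F ∈ 𝔉, ∀ G ∈ 𝔉, ∃ H ∈ 𝔉, F ⊆ H ∧ G ⊆ H := by
    rintro F ⟨hF, hFP⟩ G ⟨hG, hGP⟩
    refine ⟨join F G, ⟨hL F G hF hG, ?_⟩, ?_, ?_⟩
    · rintro _ ⟨u, hu, v, hv, rfl⟩
      exact hPinf _ _ (hFP hu) (hGP hv)
    · intro u hu
      exact ⟨u, hu, ⊤, hG.1.1, by simp⟩
    · intro u hu
      exact ⟨⊤, hF.1.1, u, hu, by simp⟩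
  let Φ : Set L := ⋃₀ 𝔉
  have hΦP : Φ ⊆ P := sUnion_subset fun F hF => hF.2
  have hΦ : IsScottOpenFilter Φ := by
    refine ⟨⟨⟨z₀.1, ⟨z₀.2.scottOpen, (hPlim z₀).mp hz₀⟩, z₀.2.1.1⟩, ?_, ?_⟩, ?_⟩
    · rintro u v ⟨F, hF, hu⟩ huv
      exact ⟨F, hF, hF.1.1.2.1 _ _ hu huv⟩
    · rintro u v ⟨F, hF, hu⟩ ⟨G, hG, hv⟩
      obtain ⟨H, hH, hFH, hGH⟩ := h𝔉dir F hF G hG
      exact ⟨H, hH, hH.1.1.2.2 _ _ (hFH hu) (hGH hv)⟩
    · rintro D hD hdir ⟨F, hF, hs⟩
      obtain ⟨u, hu, huF⟩ := hF.1.2 D hD hdir hs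
      exact ⟨u, hu, F, hF, huF⟩
  -- there is a point between Φ and P
  have hex : ∃ z : Set L, IsCompletelyPrime z ∧ Φ ⊆ z ∧ z ⊆ P := by
    by_contra hcon
    push Not at hcon
    have h1 : ∀ z : Set L, IsCompletelyPrime z → Φ ⊆ z → sSup (Pᶜ : Set L) ∈ z := by
      intro z hz hΦz
      obtain ⟨u, huz, huP⟩ := not_subset.mp (hcon z hz hΦz)
      exact hz.1.2.1 _ _ huz (le_sSup huP)
    have h2 := mem_of_forall hΦ h1
    obtain ⟨u, huP, huΦ⟩ := hΦ.2 (Pᶜ) ⟨⊥, hPbot⟩ (by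
      intro a ha b hb
      refine ⟨a ⊔ b, fun h => ?_, le_sup_left, le_sup_right⟩
      rcases hPsup a b h with h | h
      · exact ha h
      · exact hb h) h2
    exact huP (hΦP huΦ)
  obtain ⟨z, hz, hΦz, hzP⟩ := hex
  have hzΦ : z ⊆ Φ := fun u hu => ⟨z, ⟨hz.scottOpen, hzP⟩, hu⟩
  obtain ⟨x₀, hx₀⟩ : ∃ x₀ : Pt L, x₀.1 = z := ⟨⟨z, hz⟩, rfl⟩
  have key : limits 𝒰 = closure ({x₀} : Set (Pt L)) := by
    ext y
    rw [hPlim, mem_closure_singleton_iff, hx₀]
    constructor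
    · intro h u hu
      exact hΦz ⟨y.1, ⟨y.2.scottOpen, h⟩, hu⟩
    · intro h
      exact h.trans hzP
  refine ⟨x₀, key, ?_⟩
  intro y hy
  have h1 : x₀ ∈ closure ({y} : Set (Pt L)) := by
    rw [← hy, key]; exact subset_closure rfl
  have h2 : y ∈ closure ({x₀} : Set (Pt L)) := by
    rw [← key, hy]; exact subset_closure rfl
  rw [mem_closure_singleton_iff] at h1 h2
  exact Subtype.ext (Subset.antisymm h2 h1)

end proofs

end Pool.Agent.Results.MP_405999_gt.PointsStronglySober
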